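import Mathlib

namespace Pool.Agent.Results.MP_d464c7_pr.Two

open MeasureTheory Measure Set

/-- `V = ℜ(W₁ + S, W₂)` for two servers. -/
noncomputable def V (w : ℝ × ℝ) (s : ℝ) : ℝ × ℝ := (min (w.1 + s) w.2, max (w.1 + s) w.2)

/-- Law of the workload vector `W_(n)` of a system started empty. -/
noncomputable def law (S T : Measure ℝ) : ℕ → Measure (ℝ × ℝ)
  | 0 => dirac 0
  | n + 1 => ((law S T n).prod (S.prod T)).map fun x =>
      (max ((V x.1 x.2.1).1 - x.2.2) 0, max ((V x.1 x.2.1).2 - x.2.2) 0)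

/-- Law of `(V₁, V₂ - V₁, -T)` when `W` has law `π`. -/
noncomputable def fam (S T : Measure ℝ) (π : Measure (ℝ × ℝ)) : Measure (ℝ × ℝ × ℝ) :=
  (π.prod (S.prod T)).map fun x => ((V x.1 x.2.1).1, (V x.1 x.2.1).2 - (V x.1 x.2.1).1, -x.2.2)

noncomputable def h {α : Type} [MeasurableSpace α] (a b : α) : Measure α :=
  (2⁻¹ : ENNReal) • (dirac a + dirac b)

instance {α : Type} [MeasurableSpace α] (a b : α) : IsProbabilityMeasure (h a b) :=
  ⟨by simp [h, ENNReal.inv_two_add_inv_two, mul_add]⟩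

lemma key {γ : Type} [MeasurableSpace γ] {f : (ℝ × ℝ) × ℝ × ℝ → γ} (hf : Measurable f) (a b : ℝ × ℝ) :
    ((h a b).prod ((h 1 2).prod (dirac 1))).map f = (2⁻¹ * 2⁻¹ : ENNReal) • (dirac (f (a, 1, 1)) +
      dirac (f (b, 1, 1)) + (dirac (f (a, 2, 1)) + dirac (f (b, 2, 1)))) := by
  simp only [h, prod_smul_left, prod_smul_right, add_prod, prod_add, dirac_prod_dirac, smul_smul,
    Measure.map_smul, Measure.map_add _ _ hf, map_dirac' hf, smul_add]

theorem result : ∃ (S T : Measure ℝ) (π : Measure (ℝ × ℝ)), IsProbabilityMeasure S ∧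
    IsProbabilityMeasure T ∧ S (Iic 0) = 0 ∧ T (Iic 0) = 0 ∧ Integrable id S ∧ Integrable id T ∧
    (∫ s, s ∂S) / (2 * ∫ t, t ∂T) < 1 ∧ (∀ n ≥ 1, law S T n = π) ∧
    ∃ A B : Set (ℝ × ℝ × ℝ), MeasurableSet A ∧ MeasurableSet B ∧ IsUpperSet A ∧ IsUpperSet B ∧
      fam S T π (A ∩ B) < fam S T π A * fam S T π B := by
  have i : Integrable id (dirac (1 : ℝ) + dirac 2) :=
    (integrable_dirac (by simp)).add_measure (integrable_dirac (by simp))
  have hh : ∀ a : ℝ × ℝ, h a a = dirac a := fun a => by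
    rw [h, ← two_smul ENNReal, smul_smul, ENNReal.inv_mul_cancel (by simp) (by simp), one_smul]
  have st : ∀ n, law (h 1 2) (dirac 1) (n + 1) = h (0, 0) (0, 1) := fun n => by
    have e : ∀ μ : Measure (ℝ × ℝ), (2⁻¹ * 2⁻¹ : ENNReal) • (μ + μ) = (2⁻¹ : ENNReal) • μ := fun μ => by
      rw [← two_smul ENNReal, smul_smul, mul_assoc, ENNReal.inv_mul_cancel (by simp) (by simp), mul_one]
    induction n with
    | zero =>
      rw [law, law, ← hh, key (by unfold V; fun_prop), add_add_add_comm]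
      norm_num [V, -smul_add]
      exact e _
    | succ n ih =>
      rw [law, ih, key (by unfold V; fun_prop), add_add_add_comm]
      norm_num [V, -smul_add]
      exact e _
  have mA : MeasurableSet {x : ℝ × ℝ × ℝ | 1 ≤ x.1} := measurableSet_le (by fun_prop) (by fun_prop)
  have mB : MeasurableSet {x : ℝ × ℝ × ℝ | 2 ≤ x.2.1} := measurableSet_le (by fun_prop) (by fun_prop)
  refine ⟨h 1 2, dirac 1, h (0, 0) (0, 1), inferInstance, inferInstance, by simp [h], by simp,
    i.smul_measure (by simp), integrable_dirac (by simp), ?_, fun n hn => ?_, _, _, mA, mB,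
    fun a b e (c : _ ≤ _) => c.trans e.1, fun a b e (c : _ ≤ _) => c.trans e.2.1, ?_⟩
  · rw [h, integral_smul_measure, integral_add_measure (integrable_dirac (by simp))
      (integrable_dirac (by simp))]
    norm_num
  · obtain ⟨n, rfl⟩ := Nat.exists_eq_add_of_le' hn
    exact st n
  · rw [fam, key (by unfold V; fun_prop)]
    norm_num [V, indicator, mA, mB, mA.inter mB]

end Pool.Agent.Results.MP_d464c7_pr.Two
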